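import Pool.Agent.H813R2.Haight1

/-!
# Integer multiples and unions of integer dilates (Haight)

For every `ε > 0` there is a compact `E ⊆ [1, 2]` of positive measure, with complement in `[1, 2]`
of measure less than `ε`, such that *every* `x` in the interval `(1/2, 3/4)` has infinitely many
multiples `n x` outside `F(E) = ⋃_{r ≥ 1} r E`.

Idea. Let `q_0 < ... < q_{J-1}` be primes with `q_{J-1} ≤ (4/3) q_0`. By Kronecker's theorem there is
a real `T` such that modulo one `T log p` is nearly `0` for all primes `p < q_0` and `T log q_j` is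
nearly `j / J`. Let `G` be the set of all `z` for which `T log z` is close to `c` modulo one, where
`c` is chosen such that `G ∩ [1, 2]` has small measure. For `x < 3/4` choose `j` such that
`T log (q_j x)` is close to `c`. If `q_j x / r ≥ 1` then `r < q_0`, thus `T log r` is nearly `0` and
`q_j x / r ∈ G`. Finally `E` is obtained by removing from `[1, 2]` a sequence of such sets `G`.
-/

set_option autoImplicit false

open MeasureTheory Filter
open scoped ENNReal Topology

namespace Pool.Agent.Results.MP_bfec62_an.HaightFails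

/-- `F(E) = ⋃_{r ≥ 1} rE`, where `r` ranges over the positive integers and
`rE = {r x : x ∈ E}`. -/
def F (E : Set ℝ) : Set ℝ := {y | ∃ r : ℕ, 0 < r ∧ ∃ x ∈ E, y = r * x}

/-- For every `ε > 0` there is a compact set `E ⊆ [1, 2]` of positive Lebesgue measure with
`λ([1, 2] \ E) < ε` such that for every `x ∈ (1/2, 3/4)` there are infinitely many positive
integers `n` with `n x ∉ F(E)`. -/
theorem result : ∀ ε : ℝ, 0 < ε → ∃ E : Set ℝ, IsCompact E ∧ E ⊆ Set.Icc 1 2 ∧
    0 < volume E ∧ volume (Set.Icc 1 2 \ E) < ENNReal.ofReal ε ∧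
    ∀ x ∈ Set.Ioo (1 / 2 : ℝ) (3 / 4), {n : ℕ | 0 < n ∧ (n : ℝ) * x ∉ F E}.Infinite := by
  intro ε hε
  set δ : ℝ := min ε (1 / 2) with hδ
  have hδ0 : 0 < δ := lt_min hε (by norm_num)
  have hδ1 : δ ≤ 1 / 2 := min_le_right _ _
  have hδε : δ ≤ ε := min_le_left _ _
  -- choose the sizes
  have hM : ∀ k : ℕ, ∃ M : ℕ, 0 < M ∧ (1 : ℝ) / M ≤ δ / 2 / 2 / 2 ^ k := by
    intro k
    obtain ⟨M, hM⟩ := exists_nat_gt (1 / (δ / 2 / 2 / 2 ^ k))
    have h0 : 0 < δ / 2 / 2 / 2 ^ k := by positivity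
    have hM0 : (0 : ℝ) < M := lt_trans (by positivity) hM
    refine ⟨M, by exact_mod_cast hM0, ?_⟩
    rw [div_lt_iff₀ h0] at hM
    rw [div_le_iff₀ hM0]
    linarith
  choose M hM0 hM1 using hM
  choose G hGo hGv hG using fun k => Pool.Agent.H813R2.Haight.basic (M k) (hM0 k) (k + 1)
  set E : Set ℝ := Set.Icc 1 2 \ ⋃ k, G k with hE
  have hcomp : IsCompact E := isCompact_Icc.diff (isOpen_iUnion hGo)
  have hbad : volume (Set.Icc 1 2 \ E) ≤ ENNReal.ofReal (δ / 2) := by
    have h1 : Set.Icc 1 2 \ E ⊆ ⋃ k, Set.Icc 1 2 ∩ G k := by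
      rintro z ⟨hz1, hz2⟩
      have : z ∈ ⋃ k, G k := by
        by_contra h
        exact hz2 ⟨hz1, h⟩
      obtain ⟨k, hk⟩ := Set.mem_iUnion.1 this
      exact Set.mem_iUnion.2 ⟨k, hz1, hk⟩
    have h2 : volume (Set.Icc 1 2 \ E) ≤ ∑' k, ENNReal.ofReal (δ / 2 / 2 / 2 ^ k) :=
      (measure_mono h1).trans ((measure_iUnion_le _).trans
        (ENNReal.tsum_le_tsum fun k => (hGv k).trans (ENNReal.ofReal_le_ofReal (hM1 k))))
    have h3 : HasSum (fun k : ℕ => δ / 2 / 2 / 2 ^ k) (δ / 2) := hasSum_geometric_two' (δ / 2)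
    rw [← ENNReal.ofReal_tsum_of_nonneg (fun k => by positivity) h3.summable, h3.tsum_eq] at h2
    exact h2
  have hpos : 0 < volume E := by
    by_contra h0
    have h0' : volume E = 0 := by simpa using h0
    have h1 : volume (Set.Icc (1 : ℝ) 2) ≤ volume (Set.Icc (1 : ℝ) 2 \ E) + volume E := by
      refine (measure_mono ?_).trans (measure_union_le _ _)
      intro z hz
      by_cases h : z ∈ E
      · exact Or.inr h
      · exact Or.inl ⟨hz, h⟩
    rw [h0', add_zero, Real.volume_Icc] at h1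
    have h2 := h1.trans hbad
    rw [ENNReal.ofReal_le_ofReal_iff (by positivity)] at h2
    linarith
  refine ⟨E, hcomp, Set.sdiff_subset, hpos, lt_of_le_of_lt hbad ?_, ?_⟩
  · rw [ENNReal.ofReal_lt_ofReal_iff hε]
    linarith
  · intro x hx
    rw [Set.infinite_iff_exists_gt]
    intro N
    obtain ⟨n, hn, hnr⟩ := hG N x hx
    refine ⟨n, ⟨by omega, ?_⟩, by omega⟩
    rintro ⟨r, hr, e, he, hne⟩
    have hr0 : (r : ℝ) ≠ 0 := by exact_mod_cast hr.ne'
    have h1 : (n : ℝ) * x / r = e := by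
      rw [hne]; field_simp
    have h2 := hnr r hr (by rw [h1]; exact he.1)
    rw [h1] at h2
    exact he.2 (Set.mem_iUnion.2 ⟨N, h2⟩)

end Pool.Agent.Results.MP_bfec62_an.HaightFails
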